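import Mathlib
import Pool.Agent.LRG.StmtsC

set_option autoImplicit false

/-! Row IND of the squad LRG. -/

namespace Pool.Agent.LRG.H23

open NumberField NumberField.Units NumberField.Units.dirichletUnitTheorem Pool.Agent.LRG

/-- Row IND. -/
theorem ind : CX.IndStmt := by
  intro K _ _ r u hr hI c hc
  classical
  let v : Fin r → logSpace K := fun i => logEmbedding K (Additive.ofMul (u i))
  have hZ : LinearIndependent ℤ v := by
    rw [Fintype.linearIndependent_iff]
    intro m hm
    have h1 : logEmbedding K (Additive.ofMul (∏ i, u i ^ m i)) = 0 := by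
      rw [ofMul_prod, map_sum]
      rw [← hm]
      refine Finset.sum_congr rfl fun i _ => ?_
      rw [ofMul_zpow, map_zsmul]
    rw [logEmbedding_eq_zero_iff] at h1
    obtain ⟨N, hN, hpow⟩ := isOfFinOrder_iff_pow_eq_one.mp ((CommGroup.mem_torsion _).mp h1)
    have h2 : ∏ i, u i ^ ((N : ℤ) * m i) = 1 := by
      rw [← hpow, ← Finset.prod_pow]
      refine Finset.prod_congr rfl fun i _ => ?_
      rw [mul_comm, zpow_mul, zpow_natCast]
    have h3 := hI (fun i => (N : ℤ) * m i) h2
    intro i
    have h4 : (N : ℤ) * m i = 0 := congrFun h3 i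
    rcases mul_eq_zero.mp h4 with h5 | h5
    · exfalso
      have : N = 0 := by exact_mod_cast h5
      omega
    · exact h5
  have hD : DiscreteTopology (Submodule.span ℤ (Set.range v)) := by
    rw [← SetLike.isDiscrete_iff_discreteTopology]
    refine (inferInstance : DiscreteTopology (unitLattice K)).isDiscrete.mono ?_
    rw [SetLike.coe_subset_coe, Submodule.span_le]
    rintro _ ⟨i, rfl⟩
    exact ⟨Additive.ofMul (u i), Submodule.mem_top, rfl⟩
  have hR : LinearIndependent ℝ v := by
    rw [linearIndependent_iff_card_eq_finrank_span, Real.finrank_eq_int_finrank_of_discrete hD]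
    exact (finrank_span_eq_card hZ).symm
  have h0 : ∑ i, c i • v i = 0 := by
    funext w
    have h6 := hc w.val.embedding
    simp only [InfinitePlace.norm_embedding_eq] at h6
    rw [Finset.sum_apply]
    have h7 : ∀ i, (c i • v i) w = (InfinitePlace.mult w.val : ℝ) *
        (c i * Real.log (w.val ((u i : 𝓞 K) : K))) := by
      intro i
      rw [Pi.smul_apply, smul_eq_mul]
      change c i * (logEmbedding K (Additive.ofMul (u i)) w) = _
      rw [logEmbedding_component]
      ring
    rw [Finset.sum_congr rfl fun i _ => h7 i, ← Finset.mul_sum, h6, mul_zero]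
    rfl
  funext i
  exact Fintype.linearIndependent_iff.mp hR c h0 i

end Pool.Agent.LRG.H23
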