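import Mathlib
import Pool.Agent.LRG.StmtsB3

set_option autoImplicit false

/-! Row TPB of the squad LRG: the counting theorem in the form of `Defs.lean`. -/

namespace Pool.Agent.LRG.H23

open Polynomial Pool.Agent.LRG

theorem ringHom_eq (p : ℕ) [Fact p.Prime] :
    (eval₂RingHom (PowerSeries.C (R := ℤ_[p])) PowerSeries.X) =
      (Polynomial.coeToPowerSeries.ringHom : ℤ_[p][X] →+* PowerSeries ℤ_[p]) := by
  apply Polynomial.ringHom_ext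
  · intro a
    simp [Polynomial.coeToPowerSeries.ringHom_apply]
  · simp [Polynomial.coeToPowerSeries.ringHom_apply]

/-- Row TPB. -/
theorem tpb : TraStmt := by
  intro hP p _ σ _ F ε hε K₀
  obtain ⟨B, hB⟩ := hP p σ F K₀ ε hε
  refine ⟨|B|, ?_⟩
  intro X hX P hPt hcard
  have hX0 : (0 : ℝ) ≤ X := by linarith
  have hN : 1 ≤ ⌊X⌋₊ := Nat.one_le_floor_iff X |>.mpr hX
  have hNX : ((⌊X⌋₊ : ℕ) : ℝ) ≤ X := Nat.floor_le hX0
  have h1 : ∀ x ∈ P, ∀ i, |x i| ≤ ((⌊X⌋₊ : ℕ) : ℤ) ∧ (p : ℤ) ∣ x i := by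
    intro x hx i
    obtain ⟨h2, h3, -⟩ := hPt x hx
    refine ⟨?_, h3 i⟩
    have h4 := h2 i
    have h5 : (((x i).natAbs : ℕ) : ℝ) ≤ X := by
      rw [Nat.cast_natAbs, Int.cast_abs]
      exact h4
    have h6 : (x i).natAbs ≤ ⌊X⌋₊ := Nat.le_floor h5
    rw [Int.abs_eq_natAbs]
    exact_mod_cast h6
  have h7 : ∀ x ∈ P, EvZ F x := fun x hx => (hPt x hx).2.2
  have h8 : B * ((⌊X⌋₊ : ℕ) : ℝ) ^ ε < (P.card : ℝ) := by
    refine lt_of_le_of_lt ?_ hcard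
    have h9 : (0 : ℝ) ≤ ((⌊X⌋₊ : ℕ) : ℝ) ^ ε := Real.rpow_nonneg (Nat.cast_nonneg _) _
    have h10 : ((⌊X⌋₊ : ℕ) : ℝ) ^ ε ≤ X ^ ε :=
      Real.rpow_le_rpow (Nat.cast_nonneg _) hNX hε.le
    calc B * ((⌊X⌋₊ : ℕ) : ℝ) ^ ε ≤ |B| * ((⌊X⌋₊ : ℕ) : ℝ) ^ ε :=
          mul_le_mul_of_nonneg_right (le_abs_self B) h9
      _ ≤ |B| * X ^ ε := mul_le_mul_of_nonneg_left h10 (abs_nonneg B)
  obtain ⟨y, ξ, hinj, hmem, hconst, halg, hvan, hq⟩ := hB ⌊X⌋₊ hN P h1 h7 h8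
  refine ⟨fun k => y k.castSucc, y 0, ξ, ?_, fun k => hmem _, hmem 0, hconst, ?_, hvan, ?_⟩
  · intro a b hab
    exact Fin.castSucc_injective _ (hinj hab)
  · intro i
    obtain ⟨H, hH0, hH⟩ := halg i
    refine ⟨H, hH0, ?_⟩
    rw [← ringHom_eq]
    exact hH
  · intro q hq0
    exact ⟨fun k => hq q hq0 _, hq q hq0 0⟩

end Pool.Agent.LRG.H23
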